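import Pool.Agent.Helper82.LR.Shl

/-!
# (RAD) Radial function and support function near the ball
-/

open MeasureTheory Set Metric Real Filter
open scoped RealInnerProductSpace ENNReal Topology
open Pool.Agent.Helper16.Buoy (E cap IsEllipsoid Homothetic buoyancyBody)
open Pool.Agent.Helper73.HV (supp SBody)
open Pool.Agent.Helper73.LR

namespace Pool.Agent.Helper82.LR

theorem supp_bdd {n : ℕ} {K : Set (E n)} (hK : IsCompact K) (u : E n) :
    BddAbove ((fun x => inner ℝ u x) '' K) :=
  (hK.image (by fun_prop)).bddAbove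

theorem le_supp {n : ℕ} {K : Set (E n)} (hK : IsCompact K) (u : E n) {x : E n} (hx : x ∈ K) :
    inner ℝ u x ≤ supp K u := le_csSup (supp_bdd hK u) ⟨x, hx, rfl⟩

theorem supp_le {n : ℕ} {K : Set (E n)} (hne : K.Nonempty) (u : E n) {c : ℝ}
    (h : ∀ x ∈ K, inner ℝ u x ≤ c) : supp K u ≤ c := by
  refine csSup_le (hne.image _) ?_
  rintro _ ⟨x, hx, rfl⟩
  exact h x hx

theorem rad_all : S_rad := by
  intro n K ε hK hε0 hε1 hN
  obtain ⟨hgc, hgK⟩ := near_gauge hK hε1 hN
  have hne : K.Nonempty := hK.int.mono interior_subset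
  constructor
  · have hvn : ∀ v : SS n, ‖(v : E n)‖ = 1 := fun v => norm_eq_of_mem_sphere v
    have : Continuous fun v : SS n => gauge K (v : E n) := hgc.comp continuous_subtype_val
    exact this.inv₀ fun v => (hgK v (hvn v)).1.ne'
  intro v hv
  obtain ⟨g1, g2, g3⟩ := hgK v hv
  have hradpos : 0 < rad K v := inv_pos.mpr g1
  have hrv : rad K v • v ∈ K := (g3 _ hradpos).2 le_rfl
  have hvv : inner ℝ v v = (1 : ℝ) := by rw [real_inner_self_eq_norm_sq, hv]; norm_num
  have hrs : rad K v ≤ supp K v := by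
    have := le_supp hK.comp v hrv
    rwa [inner_smul_right, hvv, mul_one] at this
  have hup : ∀ u : E n, ‖u‖ = 1 → supp K u ≤ 1 + ε := by
    intro u hu
    refine supp_le hne u fun x hx => ?_
    have h1 := real_inner_le_norm u x
    have h2 := hN.2 hx
    rw [mem_closedBall_zero_iff] at h2
    rw [hu, one_mul] at h1
    linarith
  have hlo : ∀ u : E n, ‖u‖ = 1 → 1 - ε ≤ supp K u := by
    intro u hu
    have h1 : (1 - ε) • u ∈ K := by
      apply hN.1
      rw [mem_closedBall_zero_iff, norm_smul, hu, mul_one, Real.norm_eq_abs,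
        abs_of_nonneg (by linarith)]
    have h2 := le_supp hK.comp u h1
    rwa [inner_smul_right, real_inner_self_eq_norm_sq, hu, one_pow, mul_one] at h2
  refine ⟨g2, ?_, hrs, ?_⟩
  · rw [abs_le]; constructor
    · linarith [hlo v hv]
    · linarith [hup v hv]
  -- supporting hyperplane
  have h0 : K ∈ 𝓝 (0 : E n) :=
    mem_of_superset (closedBall_mem_nhds (0 : E n) (by linarith : (0 : ℝ) < 1 - ε)) hN.1
  have hgx : gauge K (rad K v • v) = 1 := by
    rw [gauge_smul_of_nonneg hradpos.le, smul_eq_mul, rad, inv_mul_cancel₀ g1.ne']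
  have hnot : rad K v • v ∉ interior K := by
    intro h
    rw [← gauge_lt_one_iff_mem_interior hK.conv h0] at h
    linarith
  obtain ⟨f, hf⟩ := geometric_hahn_banach_open_point hK.conv.interior isOpen_interior hnot
  obtain ⟨w, hw⟩ := (InnerProductSpace.toDual ℝ (E n)).surjective f
  have hfw : ∀ x, f x = inner ℝ w x := by
    intro x; rw [← hw]; rfl
  have hcl : ∀ x ∈ K, inner ℝ w x ≤ inner ℝ w (rad K v • v) := by
    intro x hx
    have hx2 : x ∈ closure (interior K) := by
      rw [hK.conv.closure_interior_eq_closure_of_nonempty_interior hK.int]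
      exact subset_closure hx
    have hclosed : IsClosed {x : E n | inner ℝ w x ≤ inner ℝ w (rad K v • v)} :=
      isClosed_le (by fun_prop) continuous_const
    have hsub : interior K ⊆ {x : E n | inner ℝ w x ≤ inner ℝ w (rad K v • v)} := by
      intro a ha
      have := hf a ha
      rw [hfw, hfw] at this
      exact this.le
    exact (closure_minimal hsub hclosed) hx2
  have hw0 : w ≠ 0 := by
    rintro rfl
    obtain ⟨a, ha⟩ := hK.int
    have := hf a ha
    rw [hfw, hfw] at this
    simp at this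
  have hwn : 0 < ‖w‖ := norm_pos_iff.2 hw0
  refine ⟨‖w‖⁻¹ • w, ?_, ?_, ?_⟩
  · rw [norm_smul, norm_inv, norm_norm, inv_mul_cancel₀ hwn.ne']
  · have hun : ‖‖w‖⁻¹ • w‖ = 1 := by rw [norm_smul, norm_inv, norm_norm, inv_mul_cancel₀ hwn.ne']
    set u : E n := ‖w‖⁻¹ • w with hu
    have h1 : supp K u ≤ rad K v * inner ℝ u v := by
      refine supp_le hne u fun x hx => ?_
      have := hcl x hx
      rw [hu, real_inner_smul_left, real_inner_smul_left]
      rw [inner_smul_right] at this
      calc ‖w‖⁻¹ * inner ℝ w x ≤ ‖w‖⁻¹ * (rad K v * inner ℝ w v) := by gcongr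
        _ = rad K v * (‖w‖⁻¹ * inner ℝ w v) := by ring
    have h2 := hlo u hun
    have h3 : rad K v ≤ 1 + ε := by rw [abs_le] at g2; linarith [g2.2]
    have h4 : inner ℝ u v ≤ 1 := by
      have := real_inner_le_norm u v
      rwa [hun, hv, one_mul] at this
    have h5 : 0 ≤ inner ℝ u v := by
      by_contra h
      push Not at h
      nlinarith
    have h6 : 1 - 2 * ε ≤ inner ℝ u v := by
      have h7 : 1 - ε ≤ (1 + ε) * inner ℝ u v := by nlinarith
      nlinarith
    rw [norm_sub_sq_real, hun, hv]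
    linarith
  · refine supp_le hne _ fun x hx => ?_
    have := hcl x hx
    rw [real_inner_smul_left]
    rw [inner_smul_right] at this
    have h4 : inner ℝ w v ≤ ‖w‖ := by
      have := real_inner_le_norm w v
      rwa [hv, mul_one] at this
    calc ‖w‖⁻¹ * inner ℝ w x ≤ ‖w‖⁻¹ * (rad K v * inner ℝ w v) := by gcongr
      _ ≤ ‖w‖⁻¹ * (rad K v * ‖w‖) := by gcongr
      _ = rad K v := by field_simp

theorem rad_near : S_rad_near := by
  intro n K ε0 ε hK hε0 hN h hε
  obtain ⟨hgc, hgK⟩ := near_gauge hK hε0 hN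
  have h0K : (0 : E n) ∈ K := by
    have h1 : K ∈ 𝓝 (0 : E n) :=
      mem_of_superset (closedBall_mem_nhds (0 : E n) (by linarith : (0 : ℝ) < 1 - ε0)) hN.1
    exact mem_of_mem_nhds h1
  constructor
  · intro x hx
    rw [mem_closedBall_zero_iff] at hx
    by_cases hx0 : x = 0
    · rw [hx0]; exact h0K
    have hxn : 0 < ‖x‖ := norm_pos_iff.2 hx0
    have hvn : ‖‖x‖⁻¹ • x‖ = 1 := by rw [norm_smul, norm_inv, norm_norm, inv_mul_cancel₀ hxn.ne']
    have h1 := (hgK _ hvn).2.2 ‖x‖ hxn
    rw [smul_smul, mul_inv_cancel₀ hxn.ne', one_smul] at h1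
    rw [h1]
    have h2 := h _ hvn
    rw [abs_le] at h2
    linarith [h2.1]
  · intro x hx
    rw [mem_closedBall_zero_iff]
    by_cases hx0 : x = 0
    · rw [hx0, norm_zero]; linarith
    have hxn : 0 < ‖x‖ := norm_pos_iff.2 hx0
    have hvn : ‖‖x‖⁻¹ • x‖ = 1 := by rw [norm_smul, norm_inv, norm_norm, inv_mul_cancel₀ hxn.ne']
    have h1 := (hgK _ hvn).2.2 ‖x‖ hxn
    rw [smul_smul, mul_inv_cancel₀ hxn.ne', one_smul] at h1
    have h2 := h _ hvn
    rw [abs_le] at h2
    linarith [h2.2, h1.1 hx]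

end Pool.Agent.Helper82.LR
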