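import Pool.Agent.Helper73.LR.Stmts

/-!
# (SHL) First order expansion of integrals over a body near the ball (polar coordinates)
-/

open MeasureTheory Set Metric Real Filter
open scoped RealInnerProductSpace ENNReal Topology
open Pool.Agent.Helper16.Buoy (E cap IsEllipsoid Homothetic buoyancyBody)
open Pool.Agent.Helper73.HV (supp SBody)
open Pool.Agent.Helper73.LR

namespace Pool.Agent.Helper82.LR

/-- Polar coordinates for integrable functions. -/
theorem polar {n : ℕ} (hn : 1 ≤ n) {g : E n → ℝ} (hg : Integrable g) :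
    Integrable (fun v : SS n => ∫ r in Ioi (0 : ℝ), r ^ (n - 1) * g (r • (v : E n))) (sg n) ∧
    ∫ x, g x = ∫ v : SS n, (∫ r in Ioi (0 : ℝ), r ^ (n - 1) * g (r • (v : E n))) ∂(sg n) := by
  have : Nonempty (Fin n) := ⟨⟨0, hn⟩⟩
  have : Nontrivial (E n) := inferInstance
  have hdim : Module.finrank ℝ (E n) = n := by simp
  have hmp := (volume : Measure (E n)).measurePreserving_homeomorphUnitSphereProd
  have hemb := (homeomorphUnitSphereProd (E n)).measurableEmbedding
  set f : SS n × Ioi (0 : ℝ) → ℝ := fun p => g ((p.2 : ℝ) • (p.1 : E n)) with hf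
  have hcomp : f ∘ (homeomorphUnitSphereProd (E n)) = fun x : ({0}ᶜ : Set (E n)) => g x := by
    funext x
    simp only [hf, Function.comp]
    have h1 : ((homeomorphUnitSphereProd (E n)) x).2.1 • (((homeomorphUnitSphereProd (E n)) x).1 : E n)
        = ((homeomorphUnitSphereProd (E n)).symm ((homeomorphUnitSphereProd (E n)) x) : E n) := by
      rw [homeomorphUnitSphereProd_symm_apply_coe]
    rw [h1, Homeomorph.symm_apply_apply]
  have hint0 : Integrable (fun x : ({0}ᶜ : Set (E n)) => g x)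
      ((volume : Measure (E n)).comap (↑)) := by
    have h2 : IntegrableOn g ({0}ᶜ : Set (E n)) := hg.integrableOn
    rwa [integrableOn_iff_comap_subtypeVal (measurableSet_singleton _).compl] at h2
  have hfint : Integrable f ((volume : Measure (E n)).toSphere.prod
      (Measure.volumeIoiPow (Module.finrank ℝ (E n) - 1))) := by
    rw [← hmp.integrable_comp_emb hemb, hcomp]
    exact hint0
  have hinner : ∀ v : SS n, ∫ r : Ioi (0 : ℝ), f (v, r)
      ∂(Measure.volumeIoiPow (Module.finrank ℝ (E n) - 1))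
      = ∫ r in Ioi (0 : ℝ), r ^ (n - 1) * g (r • (v : E n)) := by
    intro v
    simp only [Measure.volumeIoiPow, ENNReal.ofReal]
    rw [integral_withDensity_eq_integral_smul]
    · rw [hdim]
      have h3 := integral_subtype_comap (μ := (volume : Measure ℝ)) (s := Ioi (0 : ℝ))
        measurableSet_Ioi (fun a : ℝ => Real.toNNReal (a ^ (n - 1)) • g (a • (v : E n)))
      refine h3.trans ?_
      refine setIntegral_congr_fun measurableSet_Ioi fun x hx => ?_
      show Real.toNNReal (x ^ (n - 1)) • g (x • (v : E n)) = x ^ (n - 1) * g (x • (v : E n))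
      rw [NNReal.smul_def, Real.coe_toNNReal _ (pow_nonneg (le_of_lt hx) _), smul_eq_mul]
    · exact (measurable_subtype_coe.pow_const _).real_toNNReal
  have hprod := hfint.integral_prod_left
  constructor
  · refine hprod.congr (ae_of_all _ fun v => ?_)
    simpa using hinner v
  · calc ∫ x, g x = ∫ x in ({0}ᶜ : Set (E n)), g x := by
          rw [restrict_compl_singleton]
      _ = ∫ x : ({0}ᶜ : Set (E n)), g x ∂((volume : Measure (E n)).comap (↑)) := by
          rw [integral_subtype_comap (measurableSet_singleton _).compl g]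
      _ = ∫ x, f x ∂((volume : Measure (E n)).toSphere.prod
            (Measure.volumeIoiPow (Module.finrank ℝ (E n) - 1))) := by
          rw [← hmp.integral_comp hemb f]
          congr 1
          exact hcomp.symm
      _ = ∫ v : SS n, (∫ r : Ioi (0 : ℝ), f (v, r)
            ∂(Measure.volumeIoiPow (Module.finrank ℝ (E n) - 1))) ∂(sg n) :=
          integral_prod _ hfint
      _ = _ := by
          refine integral_congr_ae (ae_of_all _ fun v => ?_)
          exact hinner v

/-- Basic facts about a body near the ball: gauge, membership. -/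
theorem near_gauge {n : ℕ} {K : Set (E n)} {ε : ℝ} (hK : CB K) (h1 : ε ≤ 1 / 2)
    (hN : Near K ε) : Continuous (gauge K) ∧ (∀ v : E n, ‖v‖ = 1 → 0 < gauge K v ∧
      |rad K v - 1| ≤ ε ∧ ∀ r : ℝ, 0 < r → (r • v ∈ K ↔ r ≤ rad K v)) := by
  have h0 : K ∈ 𝓝 (0 : E n) := by
    refine mem_of_superset (closedBall_mem_nhds (0 : E n) (by linarith : (0 : ℝ) < 1 - ε)) hN.1
  have hcl : closure K = K := hK.comp.isClosed.closure_eq
  have hmem : ∀ x : E n, gauge K x ≤ 1 ↔ x ∈ K := by
    intro x
    rw [gauge_le_one_iff_mem_closure hK.conv h0, hcl]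
  refine ⟨continuous_gauge hK.conv h0, ?_⟩
  intro v hv
  have hb1 : ball (0 : E n) (1 - ε) ⊆ K := ball_subset_closedBall.trans hN.1
  have hup : (1 - ε) * gauge K v ≤ 1 := by
    have := mul_gauge_le_norm hb1 (x := v)
    rwa [hv] at this
  -- lower bound of the gauge
  have hlow : ∀ s : ℝ, 0 < s → s • v ∈ K → s ≤ 1 + ε := by
    intro s hs hsv
    have := hN.2 hsv
    rw [mem_closedBall_zero_iff, norm_smul, hv, mul_one, Real.norm_eq_abs, abs_of_pos hs] at this
    exact this
  have hgs : ∀ s : ℝ, 0 < s → gauge K (s • v) = s * gauge K v := by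
    intro s hs
    rw [gauge_smul_of_nonneg hs.le, smul_eq_mul]
  have hpos : 0 < gauge K v := by
    rcases (gauge_nonneg (s := K) v).lt_or_eq with h | h
    · exact h
    · exfalso
      have h2 : (3 : ℝ) • v ∈ K := by
        rw [← hmem, hgs 3 (by norm_num), ← h]; norm_num
      have := hlow 3 (by norm_num) h2
      linarith
  have hiff : ∀ r : ℝ, 0 < r → (r • v ∈ K ↔ r ≤ rad K v) := by
    intro r hr
    rw [← hmem, hgs r hr, rad, ← one_div, le_div_iff₀ hpos]
  refine ⟨hpos, ?_, hiff⟩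
  have hradpos : 0 < rad K v := inv_pos.mpr hpos
  have h3 : rad K v ≤ 1 + ε := hlow _ hradpos ((hiff _ hradpos).2 le_rfl)
  have h4 : 1 - ε ≤ rad K v := by
    rw [rad, ← one_div, le_div_iff₀ hpos]; exact hup
  rw [abs_le]; constructor <;> linarith

/-- The one-dimensional estimate. -/
theorem one_dim {n : ℕ} {G : E n → ℝ} {L M ε ρ : ℝ} {v : E n} (hv : ‖v‖ = 1) (hG : Continuous G)
    (hL : 0 ≤ L) (hM : 0 ≤ M)
    (hlip : ∀ x y : E n, |G x - G y| ≤ L * ‖x - y‖)
    (hbd : ∀ x ∈ closedBall (0 : E n) 2, |G x| ≤ M) (he : ε ≤ 1 / 2) (hρ : |ρ - 1| ≤ ε) :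
    |(∫ r in (1 : ℝ)..ρ, r ^ (n - 1) * G (r • v)) - G v * (ρ - 1)|
      ≤ (n * 2 ^ n + 1) * (L + M) * ε ^ 2 := by
  have hε0 : 0 ≤ ε := (abs_nonneg _).trans hρ
  have hcont : Continuous fun r : ℝ => r ^ (n - 1) * G (r • v) := by fun_prop
  have hconst : ∫ _r in (1 : ℝ)..ρ, G v = G v * (ρ - 1) := by
    rw [intervalIntegral.integral_const, smul_eq_mul, mul_comm]
  rw [← hconst, ← intervalIntegral.integral_sub (hcont.intervalIntegrable _ _)
    (continuous_const.intervalIntegrable _ _)]
  have hbound : ∀ r ∈ Set.uIoc (1 : ℝ) ρ, ‖r ^ (n - 1) * G (r • v) - G v‖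
      ≤ (n * 2 ^ n + 1) * (L + M) * ε := by
    intro r hr
    have hr1 : |r - 1| ≤ ε := by
      rw [mem_uIoc] at hr
      rw [abs_le] at hρ ⊢
      rcases hr with h | h <;> constructor <;> linarith [h.1, h.2]
    have hrpos : 0 < r := by rw [abs_le] at hr1; linarith [hr1.1]
    have hr2 : r ≤ 2 := by rw [abs_le] at hr1; linarith [hr1.2]
    have hrv : r • v ∈ closedBall (0 : E n) 2 := by
      rw [mem_closedBall_zero_iff, norm_smul, hv, mul_one, Real.norm_eq_abs, abs_of_pos hrpos]
      exact hr2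
    have h1 : |r ^ (n - 1) - 1| ≤ n * 2 ^ n * ε := by
      have h2 : |r ^ (n - 1) - 1 ^ (n - 1)| ≤ |r - 1| * (n - 1 : ℕ) * max |r| |1| ^ (n - 1 - 1) :=
        abs_pow_sub_pow_le _ _ _
      have h3 : max |r| |(1 : ℝ)| ≤ 2 := by
        rw [abs_of_pos hrpos, abs_one]; exact max_le hr2 (by norm_num)
      have h4 : max |r| |(1 : ℝ)| ^ (n - 1 - 1) ≤ 2 ^ n := by
        calc max |r| |(1 : ℝ)| ^ (n - 1 - 1) ≤ 2 ^ (n - 1 - 1) :=
              pow_le_pow_left₀ (le_max_of_le_left (abs_nonneg _)) h3 _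
          _ ≤ 2 ^ n := pow_le_pow_right₀ (by norm_num) (by omega)
      rw [one_pow] at h2
      calc |r ^ (n - 1) - 1| ≤ |r - 1| * (n - 1 : ℕ) * max |r| |1| ^ (n - 1 - 1) := h2
        _ ≤ ε * n * 2 ^ n := by
            gcongr
            · exact_mod_cast Nat.sub_le _ _
        _ = n * 2 ^ n * ε := by ring
    have h5 : |G (r • v) - G v| ≤ L * ε := by
      refine (hlip _ _).trans ?_
      have : r • v - v = (r - 1) • v := by rw [sub_smul, one_smul]
      rw [this, norm_smul, hv, mul_one, Real.norm_eq_abs]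
      gcongr
    have h6 : |G (r • v)| ≤ M := hbd _ hrv
    have h7 : r ^ (n - 1) * G (r • v) - G v
        = (r ^ (n - 1) - 1) * G (r • v) + (G (r • v) - G v) := by ring
    rw [Real.norm_eq_abs, h7]
    calc |(r ^ (n - 1) - 1) * G (r • v) + (G (r • v) - G v)|
        ≤ |(r ^ (n - 1) - 1) * G (r • v)| + |G (r • v) - G v| := abs_add_le _ _
      _ ≤ (n * 2 ^ n * ε) * M + L * ε := by
          rw [abs_mul]
          gcongr
      _ ≤ (n * 2 ^ n + 1) * (L + M) * ε := by
          have h8 : 0 ≤ (n : ℝ) * 2 ^ n := by positivity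
          nlinarith [mul_nonneg (mul_nonneg h8 hL) hε0, mul_nonneg hM hε0]
  have := intervalIntegral.norm_integral_le_of_norm_le_const hbound
  rw [Real.norm_eq_abs] at this
  refine this.trans ?_
  have h9 : 0 ≤ ((n : ℝ) * 2 ^ n + 1) * (L + M) * ε := by positivity
  calc ((n : ℝ) * 2 ^ n + 1) * (L + M) * ε * |ρ - 1|
      ≤ ((n : ℝ) * 2 ^ n + 1) * (L + M) * ε * ε := by gcongr
    _ = ((n : ℝ) * 2 ^ n + 1) * (L + M) * ε ^ 2 := by ring

theorem shell : S_shell := by
  intro n hn
  have : Nonempty (Fin n) := ⟨⟨0, hn⟩⟩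
  have : IsFiniteMeasure (sg n) := by unfold sg; infer_instance
  set σ : ℝ := (sg n).real univ with hσ
  have hσ0 : 0 ≤ σ := measureReal_nonneg
  refine ⟨(n * 2 ^ n + 1) * (σ + 1), by positivity, ?_⟩
  intro K ε hK hε0 hε1 hN F L M hL hlip hbd
  -- replace F by a globally Lipschitz function
  have hLip : LipschitzOnWith L.toNNReal F (closedBall (0 : E n) 2) := by
    apply LipschitzOnWith.of_dist_le_mul
    intro x hx y hy
    rw [Real.dist_eq, dist_eq_norm, Real.coe_toNNReal _ hL]
    exact hlip x hx y hy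
  obtain ⟨G, hGlip, hGF⟩ := hLip.extend_real
  have hGc : Continuous G := hGlip.continuous
  have hGlip' : ∀ x y : E n, |G x - G y| ≤ L * ‖x - y‖ := by
    intro x y
    have := hGlip.dist_le_mul x y
    rwa [Real.dist_eq, dist_eq_norm, Real.coe_toNNReal _ hL] at this
  have hM : 0 ≤ M := (abs_nonneg _).trans (hbd 0 (by simp))
  have hGbd : ∀ x ∈ closedBall (0 : E n) 2, |G x| ≤ M := by
    intro x hx
    rw [← hGF hx]; exact hbd x hx
  have hK2 : K ⊆ closedBall (0 : E n) 2 := hN.2.trans (closedBall_subset_closedBall (by linarith))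
  have hB2 : BB n ⊆ closedBall (0 : E n) 2 := closedBall_subset_closedBall (by norm_num)
  have hKm : MeasurableSet K := hK.comp.isClosed.measurableSet
  have hBm : MeasurableSet (BB n) := isClosed_closedBall.measurableSet
  have e1 : ∫ x in K, F x = ∫ x in K, G x :=
    setIntegral_congr_fun hKm fun x hx => hGF (hK2 hx)
  have e2 : ∫ x in BB n, F x = ∫ x in BB n, G x :=
    setIntegral_congr_fun hBm fun x hx => hGF (hB2 hx)
  have e3 : ∫ v : SS n, F v * (rad K v - 1) ∂(sg n) = ∫ v : SS n, G v * (rad K v - 1) ∂(sg n) := by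
    refine integral_congr_ae (ae_of_all _ fun v => ?_)
    simp only
    have hvm : (v : E n) ∈ closedBall (0 : E n) 2 := by
      rw [mem_closedBall_zero_iff, norm_eq_of_mem_sphere v]; norm_num
    rw [hGF hvm]
  rw [e1, e2, e3]
  obtain ⟨hgc, hgK⟩ := near_gauge hK hε1 hN
  have hiK : IntegrableOn G K := hGc.continuousOn.integrableOn_compact hK.comp
  have hiB : IntegrableOn G (BB n) := hGc.continuousOn.integrableOn_compact (isCompact_closedBall _ _)
  have hiK' : Integrable (K.indicator G) := (integrable_indicator_iff hKm).2 hiK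
  have hiB' : Integrable ((BB n).indicator G) := (integrable_indicator_iff hBm).2 hiB
  have hNB : Near (BB n) 0 := by
    constructor <;> simp
  have hCB : CB (BB n) := by
    refine ⟨convex_closedBall _ _, isCompact_closedBall _ _, ?_⟩
    rw [interior_closedBall _ (by norm_num)]
    exact ⟨0, by simp⟩
  -- inner integrals
  have hin : ∀ (A : Set (E n)) (v : E n) (ρ : ℝ), 0 ≤ ρ → (∀ r : ℝ, 0 < r → (r • v ∈ A ↔ r ≤ ρ)) →
      ∫ r in Ioi (0 : ℝ), r ^ (n - 1) * A.indicator G (r • v)
        = ∫ r in (0 : ℝ)..ρ, r ^ (n - 1) * G (r • v) := by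
    intro A v ρ hρ hA
    rw [intervalIntegral.integral_of_le hρ]
    have h1 : ∀ r ∈ Ioi (0 : ℝ), r ^ (n - 1) * A.indicator G (r • v)
        = (Ioc 0 ρ).indicator (fun r => r ^ (n - 1) * G (r • v)) r := by
      intro r hr
      by_cases h : r ≤ ρ
      · rw [indicator_of_mem ((hA r hr).2 h), indicator_of_mem (show r ∈ Ioc 0 ρ from ⟨hr, h⟩)]
      · rw [indicator_of_notMem (fun h2 => h ((hA r hr).1 h2)),
          indicator_of_notMem (fun h2 : r ∈ Ioc 0 ρ => h h2.2), mul_zero]
    rw [setIntegral_congr_fun measurableSet_Ioi h1, setIntegral_indicator measurableSet_Ioc]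
    congr 2
    ext r; simp only [mem_inter_iff, mem_Ioi, mem_Ioc]; tauto
  have hBr : ∀ v : SS n, ∀ r : ℝ, 0 < r → (r • (v : E n) ∈ BB n ↔ r ≤ 1) := by
    intro v r hr
    rw [mem_closedBall_zero_iff, norm_smul, norm_eq_of_mem_sphere v, mul_one, Real.norm_eq_abs,
      abs_of_pos hr]
  obtain ⟨p1, p2⟩ := polar hn hiK'
  obtain ⟨q1, q2⟩ := polar hn hiB'
  rw [← integral_indicator hKm, ← integral_indicator hBm, p2, q2]
  have hvn : ∀ v : SS n, ‖(v : E n)‖ = 1 := fun v => norm_eq_of_mem_sphere v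
  have hradc : Continuous fun v : SS n => rad K v := by
    have : Continuous fun v : SS n => gauge K (v : E n) := hgc.comp continuous_subtype_val
    exact this.inv₀ fun v => (hgK v (hvn v)).1.ne'
  have hcc : Continuous fun v : SS n => G v * (rad K v - 1) :=
    (hGc.comp continuous_subtype_val).mul (hradc.sub continuous_const)
  have hi3 : Integrable (fun v : SS n => G v * (rad K v - 1)) (sg n) := by
    have : IntegrableOn (fun v : SS n => G v * (rad K v - 1)) univ (sg n) :=
      hcc.continuousOn.integrableOn_compact isCompact_univ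
    rwa [integrableOn_univ] at this
  rw [show (∫ v : SS n, (∫ r in Ioi (0 : ℝ), r ^ (n - 1) * K.indicator G (r • (v : E n))) ∂(sg n))
      - (∫ v : SS n, (∫ r in Ioi (0 : ℝ), r ^ (n - 1) * (BB n).indicator G (r • (v : E n))) ∂(sg n))
      - ∫ v : SS n, G v * (rad K v - 1) ∂(sg n)
      = ∫ v : SS n, ((∫ r in Ioi (0 : ℝ), r ^ (n - 1) * K.indicator G (r • (v : E n)))
        - (∫ r in Ioi (0 : ℝ), r ^ (n - 1) * (BB n).indicator G (r • (v : E n)))
        - G v * (rad K v - 1)) ∂(sg n) by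
    rw [integral_sub (f := fun v : SS n =>
      (∫ r in Ioi (0 : ℝ), r ^ (n - 1) * K.indicator G (r • (v : E n)))
        - (∫ r in Ioi (0 : ℝ), r ^ (n - 1) * (BB n).indicator G (r • (v : E n))))
      (p1.sub q1) hi3, integral_sub p1 q1]]
  have hpt : ∀ v : SS n,
      ‖(∫ r in Ioi (0 : ℝ), r ^ (n - 1) * K.indicator G (r • (v : E n)))
        - (∫ r in Ioi (0 : ℝ), r ^ (n - 1) * (BB n).indicator G (r • (v : E n)))
        - G v * (rad K v - 1)‖ ≤ (n * 2 ^ n + 1) * (L + M) * ε ^ 2 := by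
    intro v
    obtain ⟨g1, g2, g3⟩ := hgK v (hvn v)
    have hr0 : 0 ≤ rad K v := (inv_pos.mpr g1).le
    rw [hin K v _ hr0 g3, hin (BB n) v 1 zero_le_one (hBr v)]
    have hcont : Continuous fun r : ℝ => r ^ (n - 1) * G (r • (v : E n)) := by fun_prop
    rw [intervalIntegral.integral_interval_sub_left (hcont.intervalIntegrable _ _)
      (hcont.intervalIntegrable _ _), Real.norm_eq_abs]
    exact one_dim (hvn v) hGc hL hM hGlip' hGbd hε1 g2
  have hfin := norm_integral_le_of_norm_le_const (μ := sg n) (ae_of_all _ hpt)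
  rw [Real.norm_eq_abs] at hfin
  refine hfin.trans ?_
  have h10 : 0 ≤ ((n : ℝ) * 2 ^ n + 1) * (L + M) * ε ^ 2 := by positivity
  calc ((n : ℝ) * 2 ^ n + 1) * (L + M) * ε ^ 2 * (sg n).real univ
      ≤ ((n : ℝ) * 2 ^ n + 1) * (L + M) * ε ^ 2 * (σ + 1) := by gcongr; linarith
    _ = ((n : ℝ) * 2 ^ n + 1) * (σ + 1) * (L + M) * ε ^ 2 := by ring

end Pool.Agent.Helper82.LR
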