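import Pool.Agent.Helper82.LR.Rad

/-!
# (BDS) Normalised convex bodies lie between two fixed balls
-/

open MeasureTheory Set Metric Real Filter
open scoped RealInnerProductSpace ENNReal Topology
open Pool.Agent.Helper16.Buoy (E cap IsEllipsoid Homothetic buoyancyBody)
open Pool.Agent.Helper73.HV (supp SBody)
open Pool.Agent.Helper73.LR

namespace Pool.Agent.Helper82.LR

theorem intK {n : ℕ} {K : Set (E n)} (hK : IsCompact K) {f : E n → ℝ} (hf : Continuous f) :
    IntegrableOn f K := hf.continuousOn.integrableOn_compact hK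

/-- The second moments of the ball do not depend on the direction. -/
theorem ball_mom {n : ℕ} {u v : E n} (hu : ‖u‖ = 1) (hv : ‖v‖ = 1) :
    ∫ x in BB n, (inner ℝ u x) ^ 2 = ∫ x in BB n, (inner ℝ v x) ^ 2 := by
  set R : E n ≃ₗᵢ[ℝ] E n := (ℝ ∙ (u - v))ᗮ.reflection with hR
  have hRu : R u = v := Submodule.reflection_sub (hu.trans hv.symm)
  have hmp : MeasurePreserving R (volume : Measure (E n)) volume := R.measurePreserving
  have h := hmp.setIntegral_preimage_emb R.toHomeomorph.measurableEmbedding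
    (fun x : E n => (inner ℝ v x) ^ 2) (BB n)
  have hpre : R ⁻¹' (BB n) = BB n := by
    ext x
    simp only [mem_preimage, mem_closedBall_zero_iff, LinearIsometryEquiv.norm_map]
  rw [hpre] at h
  rw [← h]
  refine setIntegral_congr_fun isClosed_closedBall.measurableSet fun x _ => ?_
  show (inner ℝ u x) ^ 2 = (inner ℝ v (R x)) ^ 2
  rw [← hRu, LinearIsometryEquiv.inner_map_map]

theorem ball_mom_pos {n : ℕ} {u : E n} (hu : ‖u‖ = 1) : 0 < ∫ x in BB n, (inner ℝ u x) ^ 2 := by
  have hc : Continuous (fun x : E n => (inner ℝ u x) ^ 2) := by fun_prop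
  rw [setIntegral_pos_iff_support_of_nonneg_ae]
  · have hopen : IsOpen (Function.support (fun x : E n => (inner ℝ u x) ^ 2) ∩ ball 0 1) :=
      hc.isOpen_support.inter isOpen_ball
    have hne : (Function.support (fun x : E n => (inner ℝ u x) ^ 2) ∩ ball (0 : E n) 1).Nonempty := by
      refine ⟨(1 / 2 : ℝ) • u, ?_, ?_⟩
      · rw [Function.mem_support, inner_smul_right, real_inner_self_eq_norm_sq, hu]
        norm_num
      · rw [mem_ball_zero_iff, norm_smul, hu]
        norm_num
    refine (hopen.measure_pos volume hne).trans_le (measure_mono ?_)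
    exact inter_subset_inter_right _ ball_subset_closedBall
  · exact ae_of_all _ fun x => sq_nonneg _
  · exact intK (isCompact_closedBall _ _) hc

/-- The half-size copy. -/
theorem half_copy {n : ℕ} {K : Set (E n)} (hK : IsCompact K) (x0 : E n) (g : E n → ℝ) :
    ∫ y in (fun x => (1 / 2 : ℝ) • (x + x0)) '' K, g y
      = (1 / 2) ^ n * ∫ x in K, g ((1 / 2 : ℝ) • (x + x0)) := by
  have hder : ∀ x ∈ K, HasFDerivWithinAt (fun x : E n => (1 / 2 : ℝ) • (x + x0))
      ((1 / 2 : ℝ) • ContinuousLinearMap.id ℝ (E n)) K x := by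
    intro x _
    exact (((hasFDerivAt_id x).add_const x0).const_smul (1 / 2 : ℝ)).hasFDerivWithinAt
  have hinj : InjOn (fun x : E n => (1 / 2 : ℝ) • (x + x0)) K := by
    intro x _ y _ h
    simp only at h
    have h2 := smul_right_injective (E n) (by norm_num : (1 / 2 : ℝ) ≠ 0) h
    exact add_right_cancel h2
  rw [integral_image_eq_integral_abs_det_fderiv_smul (μ := volume) hK.measurableSet hder hinj g]
  have hdet : |((1 / 2 : ℝ) • ContinuousLinearMap.id ℝ (E n)).det| = (1 / 2) ^ n := by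
    rw [ContinuousLinearMap.det, ContinuousLinearMap.toLinearMap_smul, LinearMap.det_smul]
    simp
  simp only [hdet, smul_eq_mul]
  rw [integral_const_mul]

theorem cb_vol {n : ℕ} {K : Set (E n)} (hK : CB K) : 0 < vol K := by
  have h1 : 0 < volume K := (isOpen_interior.measure_pos volume hK.int).trans_le
    (measure_mono interior_subset)
  exact ENNReal.toReal_pos h1.ne' hK.comp.measure_lt_top.ne

/-- Upper bound for the support function. -/
theorem supp_sq {n : ℕ} {K : Set (E n)} (hK : CB K) (hN : Nrm K) {u : E n} {κ : ℝ}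
    (hκ : ∫ x in BB n, (inner ℝ u x) ^ 2 = κ) :
    supp K u ^ 2 * vol K ≤ 2 ^ (n + 2) * κ := by
  have hne : K.Nonempty := hK.int.mono interior_subset
  have hcont : Continuous fun x : E n => (inner ℝ u x : ℝ) := by fun_prop
  obtain ⟨x0, hx0, hmax⟩ := hK.comp.exists_isMaxOn hne hcont.continuousOn
  have hs : supp K u = inner ℝ u x0 := by
    apply le_antisymm
    · exact supp_le hne u fun x hx => hmax hx
    · exact le_supp hK.comp u hx0
  set h : ℝ := supp K u with hh
  have hsub : (fun x => (1 / 2 : ℝ) • (x + x0)) '' K ⊆ K := by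
    rintro _ ⟨x, hx, rfl⟩
    have := hK.conv hx hx0 (by norm_num : (0 : ℝ) ≤ 1 / 2) (by norm_num : (0 : ℝ) ≤ 1 / 2)
      (by norm_num)
    simpa [smul_add] using this
  have hcomp2 : IsCompact ((fun x => (1 / 2 : ℝ) • (x + x0)) '' K) :=
    hK.comp.image (by fun_prop)
  have hc2 : Continuous (fun x : E n => (inner ℝ u x) ^ 2) := by fun_prop
  have h1 : ∫ y in (fun x => (1 / 2 : ℝ) • (x + x0)) '' K, (inner ℝ u y) ^ 2
      ≤ ∫ y in K, (inner ℝ u y) ^ 2 := by
    refine setIntegral_mono_set (intK hK.comp hc2) (ae_of_all _ fun x => sq_nonneg _) ?_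
    exact LE.le.eventuallyLE hsub
  rw [half_copy hK.comp, hN.iner, hκ] at h1
  have h2 : ∫ x in K, (inner ℝ u ((1 / 2 : ℝ) • (x + x0))) ^ 2
      = (1 / 4) * (κ + h ^ 2 * vol K) := by
    have e : ∀ x : E n, (inner ℝ u ((1 / 2 : ℝ) • (x + x0))) ^ 2
        = (1 / 4) * (inner ℝ u x) ^ 2 + (1 / 2) * h * inner ℝ u x + (1 / 4) * h ^ 2 := by
      intro x
      rw [inner_smul_right, inner_add_right, ← hs]; ring
    simp only [e]
    rw [integral_add, integral_add, integral_const_mul, integral_const_mul, hN.iner, hN.cent, hκ]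
    · rw [setIntegral_const, smul_eq_mul]
      have : (volume : Measure (E n)).real K = vol K := rfl
      rw [this]; ring
    · exact (intK hK.comp hc2).const_mul _
    · exact (intK hK.comp hcont).const_mul _
    · exact (intK hK.comp (by fun_prop))
    · exact intK hK.comp continuous_const
  rw [h2] at h1
  have hκ0 : 0 ≤ κ := by
    rw [← hκ]; exact setIntegral_nonneg isClosed_closedBall.measurableSet fun x _ => sq_nonneg _
  have h3 : (1 / 2 : ℝ) ^ n * ((1 / 4) * (κ + h ^ 2 * vol K)) * 2 ^ (n + 2) ≤ κ * 2 ^ (n + 2) := by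
    gcongr
  have h4 : (1 / 2 : ℝ) ^ n * ((1 / 4) * (κ + h ^ 2 * vol K)) * 2 ^ (n + 2)
      = κ + h ^ 2 * vol K := by
    rw [pow_add]
    have : (1 / 2 : ℝ) ^ n * 2 ^ n = 1 := by rw [← mul_pow]; norm_num
    calc (1 / 2 : ℝ) ^ n * ((1 / 4) * (κ + h ^ 2 * vol K)) * (2 ^ n * 2 ^ 2)
        = ((1 / 2 : ℝ) ^ n * 2 ^ n) * (κ + h ^ 2 * vol K) := by ring
      _ = _ := by rw [this, one_mul]
  rw [h4] at h3
  linarith

/-- Product of opposite support values. -/
theorem supp_prod {n : ℕ} {K : Set (E n)} (hK : CB K) (hN : Nrm K) {u : E n} {κ : ℝ}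
    (hκ : ∫ x in BB n, (inner ℝ u x) ^ 2 = κ) :
    κ ≤ supp K u * supp K (-u) * vol K := by
  have hcont : Continuous fun x : E n => (inner ℝ u x : ℝ) := by fun_prop
  have hc2 : Continuous (fun x : E n => (inner ℝ u x) ^ 2) := by fun_prop
  have h1 : 0 ≤ ∫ x in K, (supp K u - inner ℝ u x) * (inner ℝ u x + supp K (-u)) := by
    refine setIntegral_nonneg hK.comp.isClosed.measurableSet fun x hx => ?_
    have a := le_supp hK.comp u hx
    have b := le_supp hK.comp (-u) hx
    rw [inner_neg_left] at b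
    exact mul_nonneg (by linarith) (by linarith)
  have e : ∀ x : E n, (supp K u - inner ℝ u x) * (inner ℝ u x + supp K (-u))
      = (supp K u - supp K (-u)) * inner ℝ u x + (-1) * (inner ℝ u x) ^ 2
        + supp K u * supp K (-u) := by
    intro x; ring
  simp only [e] at h1
  rw [integral_add, integral_add, integral_const_mul, integral_const_mul, hN.iner, hN.cent, hκ,
    setIntegral_const, smul_eq_mul] at h1
  · have : (volume : Measure (E n)).real K = vol K := rfl
    rw [this] at h1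
    linarith
  · exact (intK hK.comp hcont).const_mul _
  · exact (intK hK.comp hc2).const_mul _
  · exact (intK hK.comp (by fun_prop))
  · exact intK hK.comp continuous_const

theorem sub_of_supp {n : ℕ} {K : Set (E n)} (hK : CB K) {m : ℝ}
    (h : ∀ u : E n, ‖u‖ = 1 → m ≤ supp K u) : closedBall 0 m ⊆ K := by
  intro y hy
  rw [mem_closedBall_zero_iff] at hy
  by_contra hyK
  have hne : K.Nonempty := hK.int.mono interior_subset
  obtain ⟨f, c, hf1, hf2⟩ := geometric_hahn_banach_closed_point hK.conv hK.comp.isClosed hyK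
  obtain ⟨w, hw⟩ := (InnerProductSpace.toDual ℝ (E n)).surjective f
  have hfw : ∀ x, f x = inner ℝ w x := by
    intro x; rw [← hw]; rfl
  have hw0 : w ≠ 0 := by
    rintro rfl
    obtain ⟨a, ha⟩ := hne
    have h1 := hf1 a ha
    rw [hfw] at h1 hf2
    simp only [inner_zero_left] at h1 hf2
    linarith
  have hwn : 0 < ‖w‖ := norm_pos_iff.2 hw0
  have hun : ‖‖w‖⁻¹ • w‖ = 1 := by rw [norm_smul, norm_inv, norm_norm, inv_mul_cancel₀ hwn.ne']
  have h2 := h _ hun
  have h3 : supp K (‖w‖⁻¹ • w) ≤ ‖w‖⁻¹ * c := by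
    refine supp_le hne _ fun x hx => ?_
    have := hf1 x hx
    rw [hfw] at this
    rw [real_inner_smul_left]
    gcongr
  have h4 : ‖w‖⁻¹ * c < ‖w‖⁻¹ * inner ℝ w y := by
    rw [hfw] at hf2
    have : 0 < ‖w‖⁻¹ := inv_pos.2 hwn
    exact mul_lt_mul_of_pos_left hf2 this
  have h5 : inner ℝ w y ≤ ‖w‖ * ‖y‖ := real_inner_le_norm w y
  have h6 : ‖w‖⁻¹ * inner ℝ w y ≤ ‖y‖ := by
    calc ‖w‖⁻¹ * inner ℝ w y ≤ ‖w‖⁻¹ * (‖w‖ * ‖y‖) := by gcongr
      _ = ‖y‖ := by field_simp
  linarith

theorem sub_of_supp_le {n : ℕ} {K : Set (E n)} (hK : CB K) {M : ℝ} (hM : 0 ≤ M)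
    (h : ∀ u : E n, ‖u‖ = 1 → supp K u ≤ M) : K ⊆ closedBall 0 M := by
  intro x hx
  rw [mem_closedBall_zero_iff]
  by_cases hx0 : x = 0
  · rw [hx0, norm_zero]; exact hM
  have hxn : 0 < ‖x‖ := norm_pos_iff.2 hx0
  have hvn : ‖‖x‖⁻¹ • x‖ = 1 := by rw [norm_smul, norm_inv, norm_norm, inv_mul_cancel₀ hxn.ne']
  have h1 := (le_supp hK.comp (‖x‖⁻¹ • x) hx).trans (h _ hvn)
  rw [real_inner_smul_left, real_inner_self_eq_norm_sq] at h1
  calc ‖x‖ = ‖x‖⁻¹ * ‖x‖ ^ 2 := by field_simp
    _ ≤ M := h1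

theorem nrm_bounds : S_nrm_bounds := by
  intro n hn
  have : Nonempty (Fin n) := ⟨⟨0, hn⟩⟩
  have : Nontrivial (E n) := inferInstance
  obtain ⟨e0, he0⟩ : ∃ e : E n, ‖e‖ = 1 := exists_norm_eq (E n) zero_le_one
  set κ : ℝ := ∫ x in BB n, (inner ℝ e0 x) ^ 2 with hκ
  have hκ0 : 0 < κ := ball_mom_pos he0
  set ω : ℝ := vol (BB n) with hω
  have hCB : CB (BB n) := by
    refine ⟨convex_closedBall _ _, isCompact_closedBall _ _, ?_⟩
    rw [interior_closedBall _ (by norm_num)]
    exact ⟨0, by simp⟩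
  have hω0 : 0 < ω := cb_vol hCB
  set a : ℝ := (κ / 2 ^ (n + 2)) ^ n * ω ^ 2 with ha
  set A : ℝ := (2 ^ (n + 2) * κ) ^ n * ω ^ 2 with hA
  have ha0 : 0 < a := by positivity
  have hA0 : 0 < A := by positivity
  set V0 : ℝ := min 1 a with hV0
  set V1 : ℝ := max 1 A with hV1
  have hV00 : 0 < V0 := lt_min one_pos ha0
  have hV10 : 0 < V1 := lt_max_of_lt_left one_pos
  refine ⟨√(κ / (2 ^ (n + 2) * V1)), √(2 ^ (n + 2) * κ / V0), by positivity, by positivity, ?_⟩
  intro K hK hN
  set V : ℝ := vol K with hV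
  have hVpos : 0 < V := cb_vol hK
  have hmom : ∀ u : E n, ‖u‖ = 1 → ∫ x in BB n, (inner ℝ u x) ^ 2 = κ := fun u hu =>
    ball_mom hu he0
  set m : ℝ := √(κ / (2 ^ (n + 2) * V)) with hm
  set M : ℝ := √(2 ^ (n + 2) * κ / V) with hM
  have hm0 : 0 < m := by positivity
  have hM0 : 0 < M := by positivity
  have hM2 : M ^ 2 = 2 ^ (n + 2) * κ / V := Real.sq_sqrt (by positivity)
  have hm2 : m ^ 2 = κ / (2 ^ (n + 2) * V) := Real.sq_sqrt (by positivity)
  have hmM : m * M = κ / V := by
    rw [hm, hM, ← Real.sqrt_mul (by positivity)]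
    rw [show κ / (2 ^ (n + 2) * V) * (2 ^ (n + 2) * κ / V) = (κ / V) ^ 2 by
      field_simp]
    exact Real.sqrt_sq (by positivity)
  have hup : ∀ u : E n, ‖u‖ = 1 → supp K u ≤ M := by
    intro u hu
    have h1 := supp_sq hK hN (hmom u hu)
    have h2 : supp K u ^ 2 ≤ M ^ 2 := by
      rw [hM2, le_div_iff₀ hVpos]; exact h1
    exact le_of_sq_le_sq h2 hM0.le
  have hlo : ∀ u : E n, ‖u‖ = 1 → m ≤ supp K u := by
    intro u hu
    have h1 := supp_prod hK hN (hmom u hu)
    have h2 := hup (-u) (by rw [norm_neg]; exact hu)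
    have h3 := hup u hu
    have h4 : κ / V ≤ supp K u * supp K (-u) := by
      rw [div_le_iff₀ hVpos]; exact h1
    have h5 : 0 < supp K u * supp K (-u) := lt_of_lt_of_le (by positivity) h4
    have h6 : 0 < supp K u := by
      by_contra h
      push Not at h
      have h7 : supp K (-u) < 0 := by
        by_contra h8
        push Not at h8
        nlinarith
      -- both negative is impossible: the sum of opposite support values is nonnegative
      obtain ⟨x, hx⟩ := hK.int.mono interior_subset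
      have a1 := le_supp hK.comp u hx
      have a2 := le_supp hK.comp (-u) hx
      rw [inner_neg_left] at a2
      linarith
    have h8 : m * M ≤ supp K u * M := by
      rw [hmM]
      calc κ / V ≤ supp K u * supp K (-u) := h4
        _ ≤ supp K u * M := by gcongr
    exact le_of_mul_le_mul_right h8 hM0
  have hin : closedBall 0 m ⊆ K := sub_of_supp hK hlo
  have hout : K ⊆ closedBall 0 M := sub_of_supp_le hK hM0.le hup
  have hball : ∀ r : ℝ, 0 ≤ r → vol (closedBall (0 : E n) r) = r ^ n * ω := by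
    intro r hr
    have := Measure.addHaar_real_closedBall' (volume : Measure (E n)) (0 : E n) hr
    rw [show Module.finrank ℝ (E n) = n by simp] at this
    exact this
  have hmono : ∀ {A B : Set (E n)}, IsCompact B → A ⊆ B → vol A ≤ vol B := by
    intro A B hB hAB
    exact ENNReal.toReal_mono hB.measure_lt_top.ne (measure_mono hAB)
  have hVlo : m ^ n * ω ≤ V := by
    rw [← hball m hm0.le]; exact hmono hK.comp hin
  have hVup : V ≤ M ^ n * ω := by
    rw [← hball M hM0.le]; exact hmono (isCompact_closedBall _ _) hout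
  have hlow : a ≤ V ^ (n + 2) := by
    have h1 : (m ^ n * ω) ^ 2 ≤ V ^ 2 := pow_le_pow_left₀ (by positivity) hVlo 2
    have h2 : (m ^ n * ω) ^ 2 = (κ / (2 ^ (n + 2) * V)) ^ n * ω ^ 2 := by
      rw [mul_pow, ← pow_mul, mul_comm n 2, pow_mul, hm2]
    rw [h2] at h1
    calc a = ((κ / (2 ^ (n + 2) * V)) ^ n * ω ^ 2) * V ^ n := by
          rw [ha, div_pow, div_pow, mul_pow]; field_simp
      _ ≤ V ^ 2 * V ^ n := by gcongr
      _ = V ^ (n + 2) := by ring
  have hhigh : V ^ (n + 2) ≤ A := by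
    have h1 : V ^ 2 ≤ (M ^ n * ω) ^ 2 := pow_le_pow_left₀ hVpos.le hVup 2
    have h2 : (M ^ n * ω) ^ 2 = (2 ^ (n + 2) * κ / V) ^ n * ω ^ 2 := by
      rw [mul_pow, ← pow_mul, mul_comm n 2, pow_mul, hM2]
    rw [h2] at h1
    calc V ^ (n + 2) = V ^ 2 * V ^ n := by ring
      _ ≤ ((2 ^ (n + 2) * κ / V) ^ n * ω ^ 2) * V ^ n := by gcongr
      _ = A := by rw [hA, div_pow]; field_simp
  have hV0V : V0 ≤ V := by
    rcases le_total 1 V with h | h
    · exact (min_le_left _ _).trans h
    · refine (min_le_right _ _).trans (hlow.trans ?_)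
      calc V ^ (n + 2) ≤ V ^ 1 := pow_le_pow_of_le_one hVpos.le h (by omega)
        _ = V := pow_one V
  have hVV1 : V ≤ V1 := by
    rcases le_total V 1 with h | h
    · exact h.trans (le_max_left _ _)
    · refine le_trans ?_ (hhigh.trans (le_max_right _ _))
      calc V = V ^ 1 := (pow_one V).symm
        _ ≤ V ^ (n + 2) := pow_le_pow_right₀ h (by omega)
  constructor
  · refine (closedBall_subset_closedBall ?_).trans hin
    apply Real.sqrt_le_sqrt
    gcongr
  · refine hout.trans (closedBall_subset_closedBall ?_)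
    apply Real.sqrt_le_sqrt
    gcongr

end Pool.Agent.Helper82.LR
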